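import Pool.Agent.TPP2.Fib

/-!
# MP_4f3b9e_al: the closed fibres over the cohomology are connected

`Point` (a homomorphism of `k`-algebras from the even part of `Ext(𝟙, 𝟙)` to `k`), `supp` (the
support variety) and `Kill` (`Kill y X`: some power of `y` annihilates `X`) are defined in
`Pool.Agent.TPP.Main` and `Pool.Agent.TPP.Support`, `ThickIdeal` in `Pool.Agent.TPP.Ideal`;
`FGCoh` (finitely generated cohomology), `FinGen` (finitely many objects generate by extensions)
and `SuppAt p X` (`X` is supported at `p`) in `Pool.Agent.TPP2.Defs`; `GenBy` (the thick tensor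
ideal generated by a class of objects) in `Pool.Agent.TPP2.Loc`.
-/

set_option autoImplicit false

namespace Pool.Agent.Results.MP_4f3b9e_al.ConnectedFibres

open CategoryTheory CategoryTheory.Limits MonoidalCategory CategoryTheory.Abelian
open Pool.Agent.TPP Pool.Agent.TPP2

universe w v u t

/-- Let `C` be a `k`-linear abelian rigid braided monoidal category (`k`-bilinear tensor product)
with simple unit object, enough projective objects and finitely generated cohomology in which
finitely many objects generate everything by extensions, for example a braided finite tensor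
category with finitely generated cohomology. Let `p` be a point of `MaxSpec H^ev` and let `J₁`,
`J₂` be classes of objects such that `p` is not in `V(F ⊗ G)` for all `F` in `J₁` and `G` in `J₂`.
If the thick tensor ideal generated by `J₁` and `J₂` contains every object supported at `p`, then
`p` is in no `V(F)` with `F` in `J₁` or in no `V(G)` with `G` in `J₂`. -/
theorem result {k : Type t} [Field k] {C : Type u} [Category.{v} C] [Abelian C] [Linear k C]
    [MonoidalCategory C] [MonoidalPreadditive C] [MonoidalLinear k C] [RigidCategory C]
    [BraidedCategory C] [HasExt.{w} C] [EnoughProjectives C] [Simple (𝟙_ C)]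
    (hfg : FGCoh.{w} k C) (hgen : FinGen C) (p : Point.{w} k C) (J₁ J₂ : C → Prop)
    (hann : ∀ F G, J₁ F → J₂ G → p ∉ supp k (F ⊗ G))
    (hex : ∀ X, SuppAt p X → GenBy (fun Z => J₁ Z ∨ J₂ Z) X) :
    (∀ F, J₁ F → p ∉ supp k F) ∨ (∀ G, J₂ G → p ∉ supp k G) :=
  fibre_connected hfg hgen p J₁ J₂ hann hex

end Pool.Agent.Results.MP_4f3b9e_al.ConnectedFibres
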