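import Pool.Agent.TPP.Main

/-!
# MP_4f3b9e_al: the tensor product property when the unit object has finite type

`ThickIdeal`, `StableZero`, `FinTo`, `IsApprox` are defined in `Pool.Agent.TPP.Ideal`, the class
`tensId A x = x ⊗ id_A` in `Pool.Agent.TPP.Support`, the thick tensor ideal `Gen A` generated by
`A`, the points of `MaxSpec H^ev` (`Point`) and the support variety `supp` in
`Pool.Agent.TPP.Main`.
-/

set_option autoImplicit false

namespace Pool.Agent.Results.MP_4f3b9e_al.FiniteTypeUnit

open CategoryTheory MonoidalCategory CategoryTheory.Abelian Pool.Agent.TPP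

universe w v u t

/-- Let `C` be a braided `k`-linear abelian rigid monoidal category with bilinear tensor product,
finite-dimensional Hom spaces, enough projective objects and simple unit object (for example any
braided finite tensor category). Let `A` be an object and `⟨A⟩ = Gen A` the thick tensor ideal
generated by `A` and the projective objects. If only finitely many indecomposable objects of `⟨A⟩`
have a morphism to `𝟙` which does not factor through a projective object, or, more generally, if
`𝟙` has a right `⟨A⟩`-approximation, then `V(A ⊗ B) = V(A) ∩ V(B)` for all objects `B`. -/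
theorem result {k : Type t} [Field k] [IsAlgClosed k] {C : Type u} [Category.{v} C] [Abelian C]
    [Linear k C] [MonoidalCategory C] [MonoidalPreadditive C] [MonoidalLinear k C]
    [RigidCategory C] [BraidedCategory C] [HasExt.{w} C] [EnoughProjectives C]
    [∀ X Y : C, FiniteDimensional k (X ⟶ Y)] [Simple (𝟙_ C)] (A : C)
    (h : FinTo (Gen A) ∨ ∃ (F : C) (f : F ⟶ 𝟙_ C), IsApprox (Gen A) F f) (B : C) :
    supp.{w} k (A ⊗ B) = supp k A ∩ supp k B := by
  rcases h with h | h
  · exact tpp_gen A (exists_approx k (thick_gen A) h) B
  · exact tpp_gen A h B

end Pool.Agent.Results.MP_4f3b9e_al.FiniteTypeUnit
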