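import Pool.Agent.TPP2.Loc

/-!
# MP_4f3b9e_al: the tensor product property at a point of finite type

`Point` (a homomorphism of `k`-algebras from the even part of `Ext(𝟙, 𝟙)` to `k`), `supp` (the
support variety) and `Kill` (`Kill y X`: some power of `y` annihilates `X`) are defined in
`Pool.Agent.TPP.Main` and `Pool.Agent.TPP.Support`, `ThickIdeal` and `StableZero` in
`Pool.Agent.TPP.Ideal`; `FGCoh` (finitely generated cohomology), `FinGen` (finitely many objects
generate by extensions) and `SuppAt p X` (`X` is supported at `p`) in `Pool.Agent.TPP2.Defs`;
`IsApproxT` (right approximation) in `Pool.Agent.TPP2.Approx`; `SumOf`, `FinAt`, `ApxAt` and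
`GenBy` (the thick tensor ideal generated by a class of objects) in `Pool.Agent.TPP2.Loc`.
-/

set_option autoImplicit false

namespace Pool.Agent.Results.MP_4f3b9e_al.LocalFiniteType

open CategoryTheory CategoryTheory.Limits MonoidalCategory CategoryTheory.Abelian
open Pool.Agent.TPP Pool.Agent.TPP2

universe w v u t

/-- Let `C` be a `k`-linear abelian rigid braided monoidal category (`k`-bilinear tensor product)
with simple unit object, finite-dimensional spaces of morphisms, enough projective objects and
finitely generated cohomology in which finitely many objects generate everything by extensions, for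
example a braided finite tensor category with finitely generated cohomology. Let `p` be a point of
`MaxSpec H^ev` such that every object supported at `p` lies in the thick tensor ideal generated by
the objects `K` with one of the following properties: only finitely many indecomposable objects
which are supported at `p` and direct summands of objects `Y ⊗ K` have a morphism to `K` which does
not factor through a projective object, or `K` has a right approximation by every thick tensor
ideal of objects supported at `p`. If `p` is in `V(A)` and in `V(B)`, then `p` is in
`V(A ⊗ B)`. -/
theorem result {k : Type t} [Field k] {C : Type u} [Category.{v} C] [Abelian C] [Linear k C]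
    [MonoidalCategory C] [MonoidalPreadditive C] [MonoidalLinear k C] [RigidCategory C]
    [BraidedCategory C] [HasExt.{w} C] [EnoughProjectives C]
    [∀ X Y : C, FiniteDimensional k (X ⟶ Y)] [Simple (𝟙_ C)]
    (hfg : FGCoh.{w} k C) (hgen : FinGen C) (p : Point.{w} k C)
    (hK : ∀ X, SuppAt p X → GenBy (fun K => FinAt p K ∨ ApxAt p K) X)
    (A B : C) (hA : p ∈ supp k A) (hB : p ∈ supp k B) : p ∈ supp k (A ⊗ B) :=
  local_tpp' hfg hgen p hK hA hB

end Pool.Agent.Results.MP_4f3b9e_al.LocalFiniteType
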